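import Pool.Agent.Lib_helper65.RB.Main
import Pool.Agent.Lib_helper14.RB.MP13
import Pool.Agent.Lib_helper65.RBO.All
import Pool.Agent.Lib_helper72.RBO.G9

/-!
# MP_247194_an: the basin of `√2` for `x_{n+1} = 1/x_{n-k} + 1/x_{n-l}`

`Basin k l`, `Semialgebraic` and the scaling `scl` are defined in
`Pool/Agent/Lib_helper65/RB/Defs.lean`; first-order definability `FO`, `DefinableFrom` and
`FinUnionIntervals` in `Pool/Agent/Lib_helper65/RBO/Defs.lean`; the double series `dser c s t` and
its restricted graph `graphSer ε c` in `Pool/Agent/Lib_helper65/RBO/P5s.lean`; the series `mser c z`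
in `b` variables, its absolute convergence `AbsConv c ε` and the states `st d x n j i` of the rows in
`Pool/Agent/Lib_helper65/RBO/Defs6.lean`.

Strategy of the first three clauses: see `Pool/Agent/Lib_helper65/Superseded/Dichotomy.lean`,
whose statement is contained in this one word for word.

General criterion: the complexified mean recursion converges uniformly on an explicit polydisc
around the constant solution (the linear averaging recursion contracts the diameter, the harmonic mean
differs from it by a quadratic error), so the limit functional is a convergent power series there;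
every real solution enters this polydisc after finitely many steps. The equations `Determining`
(`Pool/Agent/Lib_helper72/RBO/Det.lean`) have at most one continuous solution near `(1, …, 1)`, since
the states obtained by iterating the second one twice tend to a constant state.

Ratio different from `1 : 3`: for the reduced pair `(1, 5)` the limit functional has certified
log-periodic oscillations along a line; for `a + b ≥ 8` the size of the limit functional on initial
data with two adjacent small even cells `t (A, B)` is compared, as `t → 0`, through the autonomous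
dynamics `(A, B) ↦ (A + AB/(A+B), B + AB/(A+B))` of the two cells, whose rescaled growth oscillates
log-periodically as `A/B → 0` (by one certified inequality with relative margin `4 · 10^(-12)`);
the set of `A/B` for which one family wins is definable from the basin and is not a finite union of
intervals.

Ratio `1 : 3`: the products `p_n = x_n x_{n+d}` satisfy `p_{n+2d} = 1 + p_{n+d}/p_n` and converge to
`2` uniformly over all positive initial data, so the number of steps is uniform.
-/

namespace Pool.Agent.Results.MP_247194_an.Description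

open Pool.Agent.Lib_helper65.RB Pool.Agent.Lib_helper65.RBO
open Pool.Agent.Lib_helper72.RBO (Determining)

theorem result :
    (∀ k l : ℕ,
      (Basin k l = {v | ∀ i, 0 < v i} ↔ padicValNat 2 (k + 1) ≠ padicValNat 2 (l + 1)) ∧
      (k = l → Basin k l = {fun _ => √2}) ∧
      (k ≠ l → padicValNat 2 (k + 1) = padicValNat 2 (l + 1) →
        ¬ Semialgebraic (Basin k l) ∧
        (∀ P : MvPolynomial (Fin (max k l + 1)) ℝ,
          (∀ v ∈ Basin k l, MvPolynomial.eval v P = 0) → P = 0) ∧
        (∀ v : Fin (max k l + 1) → ℝ, (∀ i, 0 < v i) →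
          ∃! c : ZMod (Nat.gcd (k + 1) (l + 1)) → ℝ,
            (∀ r, 0 < c r) ∧ scl (Nat.gcd (k + 1) (l + 1)) v c ∈ Basin k l) ∧
        (∀ d a b : ℕ, d = Nat.gcd (k + 1) (l + 1) → min k l + 1 = a * d → max k l + 1 = b * d →
          ∀ ε : ℝ, ε = 1 / 4 ^ (a * b + b + 3) → ∃ c : (Fin b →₀ ℕ) → ℝ, AbsConv c ε ∧
            Determining a b ε (fun s => mser c (fun i => s i - 1)) ∧
            (∀ G : (Fin b → ℝ) → ℝ, ContinuousOn G {s | ∀ i, |s i - 1| ≤ ε} →
              Determining a b ε G → ∀ s : Fin b → ℝ, (∀ i, |s i - 1| ≤ ε / 4) →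
                G s = mser c (fun i => s i - 1)) ∧
            ∀ x : ℕ → ℝ, (∀ i ≤ max k l, 0 < x i) →
              (∀ j, x (j + max k l + 1) =
                1 / x (j + max k l - k) + 1 / x (j + max k l - l)) →
              (∃ N, ∀ n, N ≤ n → Even n →
                ∀ j < d, ∀ i < b, |st d x n j i / st d x n j 0 - 1| ≤ ε / 2) ∧
              ∀ n, Even n → (∀ j < d, ∀ i < b, |st d x n j i / st d x n j 0 - 1| ≤ ε / 2) →
                ((fun i : Fin (max k l + 1) => x i) ∈ Basin k l ↔
                  ∀ j < d, st d x n j 0 *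
                    mser c (fun i : Fin b => st d x n j i / st d x n j 0 - 1) = √2)) ∧
        (max k l + 1 ≠ 3 * (min k l + 1) →
          ∃ Z : Set ℝ, DefinableFrom (Basin k l) Z ∧ ¬ FinUnionIntervals Z))) ∧
    (∃ (n : ℕ) (ε : ℝ) (c : ℕ → ℕ → ℝ), 0 < ε ∧ ε < 1 ∧
      Summable (fun p : ℕ × ℕ => |c p.1 p.2| * ε ^ (p.1 + p.2)) ∧ c 0 0 = 1 ∧
      (∀ u v : ℝ, |u - 2| ≤ ε / 8 → |v - 2| ≤ ε / 8 →
        u * dser c (u - 2) (v - 2) = v * dser c (v / u - 1) (1 / u + 1 / v - 1)) ∧
      ∀ k l : ℕ, max k l + 1 = 3 * (min k l + 1) →
        FO (graphSer ε c) {x | (fun i : Fin (max k l + 1) => x i) ∈ Basin k l} ∧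
        ∀ x : ℕ → ℝ, (∀ i ≤ max k l, 0 < x i) →
          (∀ j, x (j + max k l + 1) = 1 / x (j + max k l - k) + 1 / x (j + max k l - l)) →
          (∀ i, n * (min k l + 1) ≤ i → |x i * x (i + (min k l + 1)) - 2| ≤ ε / 2) ∧
          ((fun i : Fin (max k l + 1) => x i) ∈ Basin k l ↔
            ∀ i, n * (min k l + 1) ≤ i → i < (n + 1) * (min k l + 1) →
              x i * dser c (x i * x (i + (min k l + 1)) - 2)
                (x (i + (min k l + 1)) * x (i + 2 * (min k l + 1)) - 2) = √2)) := by
  refine ⟨fun k l => ?_, ratio13⟩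
  obtain ⟨h1, h2, h3⟩ := main Pool.Agent.Lib_helper14.RB.no_rel_13 k l
  refine ⟨h1, h2, fun hkl hv => ?_⟩
  obtain ⟨g1, g2, g3⟩ := h3 hkl hv
  refine ⟨g1, g2, g3, fun d a b hd ha hb ε hε => ?_, fun hne => ?_⟩
  · obtain ⟨c, e3, ⟨e4, e5⟩, e6⟩ := Pool.Agent.Lib_helper72.RBO.main9 hkl hv hd ha hb hε
    exact ⟨c, e3, e4, e5, e6⟩
  apply Pool.Agent.Lib_helper72.RBO.main4 k l hkl hv
  · intro h
    apply hne
    rw [max_eq_left (by omega), min_eq_right (by omega), h]
  · intro h
    apply hne
    rw [max_eq_right (by omega), min_eq_left (by omega), h]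

end Pool.Agent.Results.MP_247194_an.Description
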